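import Mathlib

/-! Shift invariant systems of word frequencies and their densities. -/

set_option autoImplicit false

open Finset

namespace Pool.Agent.Q197.WD

variable {b : ℕ}

/-- A shift invariant system of word frequencies over the alphabet `Fin b`. -/
structure Sys (b : ℕ) where
  /-- the frequencies of the words -/
  q : ∀ k : ℕ, (Fin k → Fin b) → ℝ
  nonneg : ∀ k w, 0 ≤ q k w
  empty : ∀ w, q 0 w = 1
  right : ∀ k l (u : Fin k → Fin b), ∑ v : Fin l → Fin b, q (k + l) (Fin.append u v) = q k u
  left : ∀ k l (v : Fin l → Fin b), ∑ u : Fin k → Fin b, q (k + l) (Fin.append u v) = q l v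

/-- the mean over the words of length `k` -/
noncomputable def mean (k : ℕ) (g : (Fin k → Fin b) → ℝ) : ℝ := (∑ w, g w) / (b : ℝ) ^ k

/-- the density -/
noncomputable def Sys.f (μ : Sys b) (k : ℕ) (w : Fin k → Fin b) : ℝ := (b : ℝ) ^ k * μ.q k w

/-- its square root -/
noncomputable def Sys.r (μ : Sys b) (k : ℕ) (w : Fin k → Fin b) : ℝ := √(μ.f k w)

/-- the mean of the square root -/
noncomputable def Sys.H (μ : Sys b) (k : ℕ) : ℝ := mean k (μ.r k)

lemma mean_mono {k : ℕ} {g h : (Fin k → Fin b) → ℝ} (hgh : ∀ w, g w ≤ h w) :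
    mean k g ≤ mean k h := by
  unfold mean
  exact div_le_div_of_nonneg_right (Finset.sum_le_sum fun w _ => hgh w) (by positivity)

lemma mean_nonneg {k : ℕ} {g : (Fin k → Fin b) → ℝ} (hg : ∀ w, 0 ≤ g w) : 0 ≤ mean k g := by
  unfold mean
  exact div_nonneg (Finset.sum_nonneg fun w _ => hg w) (by positivity)

lemma mean_add {k : ℕ} (g h : (Fin k → Fin b) → ℝ) :
    mean k (fun w => g w + h w) = mean k g + mean k h := by
  unfold mean
  rw [Finset.sum_add_distrib, add_div]

lemma mean_sub {k : ℕ} (g h : (Fin k → Fin b) → ℝ) :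
    mean k (fun w => g w - h w) = mean k g - mean k h := by
  unfold mean
  rw [Finset.sum_sub_distrib, sub_div]

lemma mean_const_mul {k : ℕ} (c : ℝ) (g : (Fin k → Fin b) → ℝ) :
    mean k (fun w => c * g w) = c * mean k g := by
  unfold mean
  rw [← Finset.mul_sum, mul_div_assoc]

variable [NeZero b]

lemma bpos : (0 : ℝ) < b := by exact_mod_cast Nat.pos_of_ne_zero (NeZero.ne b)

lemma mean_const {k : ℕ} (c : ℝ) : mean k (fun _ : Fin k → Fin b => c) = c := by
  unfold mean
  have := bpos (b := b)
  rw [Finset.sum_const, Finset.card_univ, Fintype.card_fun, Fintype.card_fin, Fintype.card_fin,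
    nsmul_eq_mul]
  push_cast
  field_simp

/-- means over words of length `k + l` -/
lemma mean_append {k l : ℕ} (g : (Fin (k + l) → Fin b) → ℝ) :
    mean (k + l) g = mean k fun u => mean l fun v => g (Fin.append u v) := by
  unfold mean
  have h1 : ∑ w, g w = ∑ u : Fin k → Fin b, ∑ v : Fin l → Fin b, g (Fin.append u v) := by
    rw [← (Fin.appendEquiv k l).sum_comp g, Fintype.sum_prod_type]
    rfl
  rw [h1, pow_add, ← Finset.sum_div, div_div, mul_comm ((b : ℝ) ^ l)]

lemma mean_comm {k l : ℕ} (g : (Fin k → Fin b) → (Fin l → Fin b) → ℝ) :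
    (mean k fun u => mean l fun v => g u v) = mean l fun v => mean k fun u => g u v := by
  unfold mean
  rw [← Finset.sum_div, ← Finset.sum_div, Finset.sum_comm, div_div, div_div, mul_comm ((b : ℝ) ^ k)]

variable (μ : Sys b)

lemma f_nonneg (k : ℕ) (w : Fin k → Fin b) : 0 ≤ μ.f k w := by
  unfold Sys.f
  have := μ.nonneg k w
  positivity

lemma r_nonneg (k : ℕ) (w : Fin k → Fin b) : 0 ≤ μ.r k w := Real.sqrt_nonneg _

lemma r_sq (k : ℕ) (w : Fin k → Fin b) : μ.r k w ^ 2 = μ.f k w := Real.sq_sqrt (f_nonneg μ k w)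

lemma mean_f_right (k l : ℕ) (u : Fin k → Fin b) :
    (mean l fun v => μ.f (k + l) (Fin.append u v)) = μ.f k u := by
  unfold mean Sys.f
  have := bpos (b := b)
  rw [← Finset.mul_sum, μ.right, pow_add]
  field_simp

lemma mean_f_left (k l : ℕ) (v : Fin l → Fin b) :
    (mean k fun u => μ.f (k + l) (Fin.append u v)) = μ.f l v := by
  unfold mean Sys.f
  have := bpos (b := b)
  rw [← Finset.mul_sum, μ.left, pow_add]
  field_simp

lemma mean_f (k : ℕ) : mean k (μ.f k) = 1 := by
  have h1 := μ.right 0 k (fun i => i.elim0)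
  rw [μ.empty] at h1
  have h2 : ∑ w : Fin k → Fin b, μ.q k w = 1 := by
    rw [← h1]
    have e : ∀ v : Fin k → Fin b, μ.q (0 + k) (Fin.append (fun i : Fin 0 => i.elim0) v) =
        μ.q k v := by
      intro v
      have e1 : ∀ (m : ℕ) (h : m = k) (w : Fin m → Fin b), (∀ i, w i = v (Fin.cast h i)) →
          μ.q m w = μ.q k v := by
        intro m h w hw
        subst h
        congr 1
        funext i
        rw [hw]
        rfl
      apply e1 (0 + k) (by simp)
      intro i
      have : i = Fin.natAdd 0 (Fin.cast (by simp) i) := by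
        ext; simp
      rw [this, Fin.append_right]
      congr 1
      ext
      simp
    exact Finset.sum_congr rfl fun v _ => (e v).symm
  unfold mean Sys.f
  have := bpos (b := b)
  rw [← Finset.mul_sum, h2]
  field_simp

/-- a mean of square roots is at most the square root of the mean -/
lemma mean_le_of_sq {k : ℕ} {g : (Fin k → Fin b) → ℝ} {x : ℝ} (hx : 0 ≤ x)
    (h : mean k (fun w => g w ^ 2) = x ^ 2) : mean k g ≤ x := by
  have h1 : 0 ≤ mean k (fun w => (g w - x) ^ 2) := mean_nonneg fun w => sq_nonneg _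
  have h2 : mean k (fun w => (g w - x) ^ 2) = x ^ 2 - 2 * x * mean k g + x ^ 2 := by
    have : (fun w => (g w - x) ^ 2) = fun w => (g w ^ 2 - (2 * x) * g w) + x ^ 2 := by
      funext w; ring
    rw [this, mean_add, mean_sub, mean_const_mul, mean_const, h]
  rcases hx.eq_or_lt with h0 | h0
  · -- all values are zero
    have h3 : mean k (fun w => g w ^ 2) = 0 := by rw [h, ← h0]; ring
    have hb := bpos (b := b)
    have h4 : ∑ w, g w ^ 2 = 0 := by
      unfold mean at h3
      rcases div_eq_zero_iff.1 h3 with h5 | h5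
      · exact h5
      · exact absurd h5 (by positivity)
    have h5 : ∀ w, g w = 0 := by
      intro w
      have := (Finset.sum_eq_zero_iff_of_nonneg (fun w _ => sq_nonneg (g w))).1 h4 w
        (Finset.mem_univ w)
      exact pow_eq_zero_iff (two_ne_zero) |>.1 this
    rw [← h0]
    have : g = fun _ => 0 := by funext w; exact h5 w
    rw [this, mean_const]
  · rw [h2] at h1
    nlinarith

lemma gap_right (k l : ℕ) (u : Fin k → Fin b) :
    (mean l fun v => μ.r (k + l) (Fin.append u v)) ≤ μ.r k u := by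
  apply mean_le_of_sq (r_nonneg μ k u)
  rw [r_sq, ← mean_f_right μ k l u]
  congr 1
  funext v
  exact r_sq μ _ _

lemma gap_left (k l : ℕ) (v : Fin l → Fin b) :
    (mean k fun u => μ.r (k + l) (Fin.append u v)) ≤ μ.r l v := by
  apply mean_le_of_sq (r_nonneg μ l v)
  rw [r_sq, ← mean_f_left μ k l v]
  congr 1
  funext u
  exact r_sq μ _ _

lemma H_anti (k l : ℕ) : μ.H (k + l) ≤ μ.H k := by
  unfold Sys.H
  rw [mean_append]
  exact mean_mono fun u => gap_right μ k l u

lemma H_antitone : Antitone μ.H := by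
  intro k m hkm
  obtain ⟨l, rfl⟩ := Nat.exists_eq_add_of_le hkm
  exact H_anti μ k l

lemma H_nonneg (k : ℕ) : 0 ≤ μ.H k := mean_nonneg fun w => r_nonneg μ k w

lemma H_lt_one {k : ℕ} {w : Fin k → Fin b} (hw : μ.q k w ≠ 1 / (b : ℝ) ^ k) : μ.H k < 1 := by
  have hb := bpos (b := b)
  have h1 : ∀ w, μ.r k w ≤ (1 + μ.f k w) / 2 := by
    intro w
    have := r_sq μ k w
    nlinarith [sq_nonneg (μ.r k w - 1)]
  have h2 : μ.r k w < (1 + μ.f k w) / 2 := by
    have h3 : μ.r k w ≠ 1 := by
      intro h
      have h4 := r_sq μ k w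
      rw [h] at h4
      apply hw
      unfold Sys.f at h4
      rw [eq_div_iff (by positivity)]
      linarith
    have h4 : 0 < (μ.r k w - 1) ^ 2 := by
      have : μ.r k w - 1 ≠ 0 := sub_ne_zero.2 h3
      positivity
    have := r_sq μ k w
    nlinarith
  have h3 : μ.H k < mean k (fun w => (1 + μ.f k w) / 2) := by
    unfold Sys.H mean
    apply div_lt_div_of_pos_right _ (by positivity)
    exact Finset.sum_lt_sum (fun w _ => h1 w) ⟨w, Finset.mem_univ w, h2⟩
  have h4 : mean k (fun w => (1 + μ.f k w) / 2) = 1 := by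
    have : (fun w => (1 + μ.f k w) / 2) = fun w => (1 / 2) * (1 + μ.f k w) := by
      funext w; ring
    rw [this, mean_const_mul, mean_add, mean_const, mean_f]
    norm_num
  rw [h4] at h3
  exact h3

/-- the exact gap -/
lemma gap_eq {l : ℕ} {g : (Fin l → Fin b) → ℝ} {x : ℝ} (hx : 0 ≤ x)
    (h : mean l (fun w => g w ^ 2) = x ^ 2) :
    mean l (fun v => (x - g v) ^ 2 / (2 * x)) ≤ x - mean l g := by
  have h2 : mean l (fun w => (x - g w) ^ 2) = 2 * x * (x - mean l g) := by
    have : (fun w => (x - g w) ^ 2) = fun w => (g w ^ 2 - (2 * x) * g w) + x ^ 2 := by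
      funext w; ring
    rw [this, mean_add, mean_sub, mean_const_mul, mean_const, h]
    ring
  have h3 : mean l (fun v => (x - g v) ^ 2 / (2 * x)) = mean l (fun w => (x - g w) ^ 2) / (2 * x) := by
    unfold mean
    rw [← Finset.sum_div, div_right_comm]
  rw [h3, h2]
  rcases hx.eq_or_lt with h0 | h0
  · have := mean_le_of_sq hx h
    rw [← h0] at this ⊢
    simp only [mul_zero, zero_mul, div_zero]
    linarith
  · rw [mul_div_cancel_left₀ _ (by positivity)]

/-- the pointwise inequality -/
lemma pointwise {X Y Z δ : ℝ} (hδ0 : 0 < δ) (hδ1 : δ ≤ 1) (hX : 1 - δ / 2 ≤ X) (hY0 : 0 ≤ Y)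
    (hY : Y ≤ 1 - 3 * δ / 4) (hZ : 0 ≤ Z) (hYZ : Y = 0 → Z = 0) :
    δ ^ 2 / 512 ≤ (X - Z) ^ 2 / (2 * X) + (Y - Z) ^ 2 / (2 * Y) := by
  have hX2 : 1 / 2 ≤ X := by linarith
  have hX0 : 0 < X := by linarith
  have hXY : X * (δ / 4) ≤ X - Y := by nlinarith
  rcases le_or_gt Z ((X + Y) / 2) with h | h
  · have h1 : X * (δ / 8) ≤ X - Z := by linarith
    have h2 : (X * (δ / 8)) ^ 2 ≤ (X - Z) ^ 2 := by
      apply pow_le_pow_left₀ (by positivity) h1
    have h3 : δ ^ 2 / 512 ≤ (X - Z) ^ 2 / (2 * X) := by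
      rw [le_div_iff₀ (by positivity)]
      refine le_trans ?_ h2
      have : (X * (δ / 8)) ^ 2 = X * (X * δ ^ 2 / 64) := by ring
      rw [this]
      have h4 : δ ^ 2 / 512 * (2 * X) = X * (δ ^ 2 / 256) := by ring
      rw [h4]
      apply mul_le_mul_of_nonneg_left _ hX0.le
      nlinarith [sq_nonneg δ]
    have h4 : 0 ≤ (Y - Z) ^ 2 / (2 * Y) := by positivity
    linarith
  · have hY0' : 0 < Y := by
      rcases hY0.eq_or_lt with h0 | h0
      · have := hYZ h0.symm
        rw [this, ← h0] at h
        linarith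
      · exact h0
    have h1 : δ / 16 ≤ Z - Y := by nlinarith
    have h2 : (δ / 16) ^ 2 ≤ (Y - Z) ^ 2 := by
      rw [show (Y - Z) ^ 2 = (Z - Y) ^ 2 by ring]
      apply pow_le_pow_left₀ (by positivity) h1
    have h3 : δ ^ 2 / 512 ≤ (Y - Z) ^ 2 / (2 * Y) := by
      rw [le_div_iff₀ (by positivity)]
      refine le_trans ?_ h2
      have : δ ^ 2 / 512 * (2 * Y) ≤ δ ^ 2 / 512 * 2 := by
        have : Y ≤ 1 := by linarith
        nlinarith [sq_nonneg δ]
      linarith
    have h4 : 0 ≤ (X - Z) ^ 2 / (2 * X) := by positivity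
    linarith

open Classical in
/-- the proportion of the words with a property -/
noncomputable def prop (b k : ℕ) (P : (Fin k → Fin b) → Prop) : ℝ :=
  ((Finset.univ.filter P).card : ℝ) / (b : ℝ) ^ k

open Classical in
omit [NeZero b] in
lemma prop_eq (k : ℕ) (P : (Fin k → Fin b) → Prop) :
    prop b k P = mean k (fun w => if P w then 1 else 0) := by
  unfold prop mean
  rw [Finset.sum_boole]

/-- The mean of the square roots decreases at every step at which many densities are large. -/
theorem decrease {k : ℕ} {δ : ℝ} (hδ0 : 0 < δ) (hδ1 : δ ≤ 1) (hH : μ.H k ≤ 1 - δ) :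
    prop b k (fun w => 1 - δ / 2 ≤ μ.r k w) * (δ ^ 3 / 4096) ≤ μ.H k - μ.H (k + k) := by
  classical
  have hb := bpos (b := b)
  set S : (Fin k → Fin b) → Prop := fun w => 1 - δ / 2 ≤ μ.r k w with _
  set T : (Fin k → Fin b) → Prop := fun w => μ.r k w ≤ 1 - 3 * δ / 4 with _
  -- many words with a small density
  have hTp : δ / 4 ≤ prop b k T := by
    have h1 : mean k (fun w => (1 - 3 * δ / 4) * (1 - if T w then 1 else 0)) ≤ μ.H k := by
      apply mean_mono
      intro w
      by_cases hw : T w
      · simp only [hw, if_true, sub_self, mul_zero]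
        exact r_nonneg μ k w
      · simp only [hw, if_false, sub_zero, mul_one]
        exact (not_le.1 hw).le
    rw [mean_const_mul, mean_sub, mean_const, ← prop_eq] at h1
    nlinarith
  have hzero : ∀ (u v : Fin k → Fin b), μ.r k v = 0 → μ.r (k + k) (Fin.append u v) = 0 := by
    intro u v hv
    have h1 : μ.f k v = 0 := by rw [← r_sq, hv]; ring
    have h2 := mean_f_left μ k k v
    rw [h1] at h2
    have h3 : ∑ u, μ.f (k + k) (Fin.append u v) = 0 := by
      unfold mean at h2
      rcases div_eq_zero_iff.1 h2 with h5 | h5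
      · exact h5
      · exact absurd h5 (by positivity)
    have h4 := (Finset.sum_eq_zero_iff_of_nonneg
      (fun u _ => f_nonneg μ (k + k) (Fin.append u v))).1 h3 u (Finset.mem_univ u)
    unfold Sys.r
    rw [h4, Real.sqrt_zero]
  -- the two gaps
  set X : (Fin k → Fin b) → ℝ := μ.r k with hX
  set Z : (Fin k → Fin b) → (Fin k → Fin b) → ℝ := fun u v => μ.r (k + k) (Fin.append u v) with hZ
  have g1 : (mean k fun u => mean k fun v => (X u - Z u v) ^ 2 / (2 * X u)) ≤
      μ.H k - μ.H (k + k) := by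
    have h1 : μ.H k - μ.H (k + k) = mean k fun u => X u - mean k fun v => Z u v := by
      rw [mean_sub]
      unfold Sys.H
      rw [mean_append]
    rw [h1]
    apply mean_mono
    intro u
    apply gap_eq (r_nonneg μ k u)
    rw [r_sq, ← mean_f_right μ k k u]
    congr 1
    funext v
    exact r_sq μ _ _
  have g2 : (mean k fun v => mean k fun u => (X v - Z u v) ^ 2 / (2 * X v)) ≤
      μ.H k - μ.H (k + k) := by
    have h1 : μ.H k - μ.H (k + k) = mean k fun v => X v - mean k fun u => Z u v := by
      rw [mean_sub]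
      unfold Sys.H
      rw [mean_append, mean_comm]
    rw [h1]
    apply mean_mono
    intro v
    apply gap_eq (r_nonneg μ k v)
    rw [r_sq, ← mean_f_left μ k k v]
    congr 1
    funext u
    exact r_sq μ _ _
  rw [mean_comm] at g2
  have g3 : (mean k fun u => mean k fun v => (if S u then (1 : ℝ) else 0) *
      ((δ ^ 2 / 512) * (if T v then (1 : ℝ) else 0))) ≤ 2 * (μ.H k - μ.H (k + k)) := by
    have h1 : (mean k fun u => mean k fun v => (if S u then (1 : ℝ) else 0) *
      ((δ ^ 2 / 512) * (if T v then (1 : ℝ) else 0))) ≤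
      mean k fun u => mean k fun v => (X u - Z u v) ^ 2 / (2 * X u) +
        (X v - Z u v) ^ 2 / (2 * X v) := by
      apply mean_mono
      intro u
      apply mean_mono
      intro v
      have hXu : 0 ≤ X u := r_nonneg μ k u
      have hXv : 0 ≤ X v := r_nonneg μ k v
      by_cases hu : S u
      · by_cases hv : T v
        · simp only [hu, hv, if_true, mul_one, one_mul]
          exact pointwise hδ0 hδ1 hu hXv hv (r_nonneg μ _ _) (hzero u v)
        · simp only [hv, if_false, mul_zero]
          positivity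
      · simp only [hu, if_false, zero_mul]
        positivity
    have h2 : (mean k fun u => mean k fun v => (X u - Z u v) ^ 2 / (2 * X u) +
        (X v - Z u v) ^ 2 / (2 * X v)) =
        (mean k fun u => mean k fun v => (X u - Z u v) ^ 2 / (2 * X u)) +
        (mean k fun u => mean k fun v => (X v - Z u v) ^ 2 / (2 * X v)) := by
      rw [← mean_add]
      congr 1
      funext u
      rw [← mean_add]
    linarith
  have g4 : (mean k fun u => mean k fun v => (if S u then (1 : ℝ) else 0) *
      ((δ ^ 2 / 512) * (if T v then (1 : ℝ) else 0))) =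
      prop b k S * (δ ^ 2 / 512 * prop b k T) := by
    simp_rw [mean_const_mul]
    rw [← prop_eq]
    have : (fun u => (if S u then (1 : ℝ) else 0) * (δ ^ 2 / 512 * prop b k T)) =
        fun u => (δ ^ 2 / 512 * prop b k T) * (if S u then (1 : ℝ) else 0) := by
      funext u; ring
    rw [this, mean_const_mul, ← prop_eq, mul_comm]
  rw [g4] at g3
  have hSp : 0 ≤ prop b k S := by unfold prop; positivity
  have h5 : prop b k S * (δ ^ 2 / 512 * (δ / 4)) ≤ prop b k S * (δ ^ 2 / 512 * prop b k T) := by
    gcongr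
  have h6 : prop b k S * (δ ^ 2 / 512 * (δ / 4)) = 2 * (prop b k S * (δ ^ 3 / 4096)) := by ring
  linarith

/-- The main theorem: for a system other than the uniform one the proportions of the words with
at least `1 - δ` times the uniform frequency are summable along lacunary lengths. -/
theorem summable_prop {k0 : ℕ} {w0 : Fin k0 → Fin b} (hw0 : μ.q k0 w0 ≠ 1 / (b : ℝ) ^ k0) :
    ∃ ε : ℝ, 0 < ε ∧ ∀ k : ℕ → ℕ, (∀ j, 0 < k j) → (∀ j, 2 * k j ≤ k (j + 1)) →
      Summable fun j => prop b (k j) (fun w => (1 - ε) / (b : ℝ) ^ k j ≤ μ.q (k j) w) := by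
  have hb := bpos (b := b)
  have h0 := H_lt_one μ hw0
  set δ : ℝ := 1 - μ.H k0 with hδ
  have hδ0 : 0 < δ := by linarith
  have hδ1 : δ ≤ 1 := by
    have := H_nonneg μ k0
    linarith
  refine ⟨δ / 2, by positivity, ?_⟩
  intro k hk1 hk2
  have hle : ∀ (m : ℕ), prop b m (fun w => (1 - δ / 2) / (b : ℝ) ^ m ≤ μ.q m w) ≤
      prop b m (fun w => 1 - δ / 2 ≤ μ.r m w) := by
    intro m
    unfold prop
    apply div_le_div_of_nonneg_right _ (by positivity)
    have : (Finset.univ.filter fun w => (1 - δ / 2) / (b : ℝ) ^ m ≤ μ.q m w) ⊆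
        (Finset.univ.filter fun w => 1 - δ / 2 ≤ μ.r m w) := by
      intro w hw
      rw [Finset.mem_filter] at hw ⊢
      refine ⟨hw.1, ?_⟩
      have h1 : 1 - δ / 2 ≤ μ.f m w := by
        unfold Sys.f
        have h2 := hw.2
        rw [div_le_iff₀ (by positivity)] at h2
        linarith
      rw [← r_sq] at h1
      by_contra hcon
      rw [not_le] at hcon
      have h3 := r_nonneg μ m w
      nlinarith
    exact_mod_cast Finset.card_le_card this
  have hkgrow : ∀ j, k0 ≤ k (k0 + j) := by
    intro j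
    have h1 : ∀ i, i ≤ k i := by
      intro i
      induction i with
      | zero => omega
      | succ i ih =>
        have := hk2 i
        have := hk1 i
        omega
    have := h1 (k0 + j)
    omega
  -- the sums
  rw [← summable_nat_add_iff k0]
  apply summable_of_sum_range_le (c := 4096 / δ ^ 3)
  · intro j
    unfold prop
    positivity
  · intro n
    have h1 : ∀ j, prop b (k (j + k0)) (fun w => (1 - δ / 2) / (b : ℝ) ^ k (j + k0) ≤
        μ.q (k (j + k0)) w) ≤ 4096 / δ ^ 3 * (μ.H (k (j + k0)) - μ.H (k (j + 1 + k0))) := by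
      intro j
      have h2 : μ.H (k (j + k0)) ≤ 1 - δ := by
        have := H_antitone μ (hkgrow j)
        rw [add_comm k0 j] at this
        linarith
      have h3 := decrease μ hδ0 hδ1 h2
      have h4 : μ.H (k (j + 1 + k0)) ≤ μ.H (k (j + k0) + k (j + k0)) := by
        apply H_antitone μ
        have := hk2 (j + k0)
        have e : j + 1 + k0 = j + k0 + 1 := by ring
        rw [e]
        omega
      have h5 : prop b (k (j + k0)) (fun w => 1 - δ / 2 ≤ μ.r (k (j + k0)) w) * (δ ^ 3 / 4096) ≤
          μ.H (k (j + k0)) - μ.H (k (j + 1 + k0)) := by linarith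
      have h6 := hle (k (j + k0))
      calc _ ≤ _ := h6
        _ = 4096 / δ ^ 3 * (prop b (k (j + k0)) (fun w => 1 - δ / 2 ≤ μ.r (k (j + k0)) w) *
            (δ ^ 3 / 4096)) := by field_simp
        _ ≤ _ := by gcongr
    calc _ ≤ ∑ j ∈ Finset.range n, 4096 / δ ^ 3 *
          (μ.H (k (j + k0)) - μ.H (k (j + 1 + k0))) := Finset.sum_le_sum fun j _ => h1 j
      _ = 4096 / δ ^ 3 * (μ.H (k (0 + k0)) - μ.H (k (n + k0))) := by
          rw [← Finset.mul_sum, Finset.sum_range_sub' (fun j => μ.H (k (j + k0)))]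
      _ ≤ 4096 / δ ^ 3 * 1 := by
          have h2 : μ.H (k (0 + k0)) ≤ 1 := by
            have := H_antitone μ (hkgrow 0)
            rw [add_zero] at this
            rw [zero_add]
            linarith
          have h3 := H_nonneg μ (k (n + k0))
          gcongr
          linarith
      _ = _ := mul_one _

end Pool.Agent.Q197.WD
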