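import Pool.Agent.Q197.WD.Sharp

/-! Sequences and real numbers which show that the condition is sharp. -/

set_option autoImplicit false

open Finset Filter Topology

namespace Pool.Agent.Q197.WD

variable {b : ℕ} [NeZero b]

/-- **Sharpness for sequences.** -/
theorem seq_sharp (hb : 2 ≤ b) (k : ℕ → ℕ) (hk0 : ∀ j, 0 < k j) (hk : StrictMono k) (c : ℕ → ℝ)
    (hc0 : ∀ j, 0 ≤ c j) (hc : Summable c) :
    ∃ a : ℕ → Fin b, (∀ N, ∃ n, N ≤ n ∧ a n = 0) ∧
      (¬ Tendsto (fun N : ℕ => (count a N (fun _ : Fin 3 => (0 : Fin b)) : ℝ) / N) atTop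
        (𝓝 (1 / (b : ℝ) ^ 3))) ∧
      ∀ᶠ j in atTop, ∀ ε : ℝ, 0 < ε → c j ≤ prop b (k j) (fun w : Fin (k j) → Fin b =>
        ∀ᶠ N : ℕ in atTop, (1 - ε) / (b : ℝ) ^ k j ≤ (count a N w : ℝ) / N) := by
  classical
  have hb' : (2 : ℝ) ≤ b := by exact_mod_cast hb
  have hb0 : (0 : ℝ) < b := by linarith
  set g : ℕ → ℝ := fun j => c j + k j / (b : ℝ) ^ k j with hg
  have hgs : Summable g := by
    apply hc.add
    have h1 : Summable (fun n : ℕ => (n : ℝ) ^ 1 * ((b : ℝ)⁻¹) ^ n) := by
      apply summable_pow_mul_geometric_of_norm_lt_one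
      rw [norm_inv, Real.norm_eq_abs, abs_of_pos hb0]
      exact inv_lt_one_of_one_lt₀ (by linarith)
    have h2 := h1.comp_injective hk.injective
    refine h2.congr fun j => ?_
    simp only [Function.comp]
    rw [pow_one, inv_pow, div_eq_mul_inv]
  have hg0 : ∀ j, 0 ≤ g j := fun j => by
    have := hc0 j
    rw [hg]
    positivity
  have htail := tendsto_sum_nat_add g
  have h1 : ∀ᶠ i in atTop, ∑' m, g (m + i) < 1 / 2 := htail.eventually_lt_const (by norm_num)
  obtain ⟨j0, hj0⟩ := h1.exists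
  have hgj : ∀ j, j0 ≤ j → g j ≤ 1 / 2 := by
    intro j hj
    have h2 : Summable fun m => g (m + j0) := (summable_nat_add_iff j0).2 hgs
    have h3 := h2.le_tsum (j - j0) (fun m _ => hg0 _)
    have h4 : j - j0 + j0 = j := by omega
    simp only [h4] at h3
    linarith
  have hcj : ∀ j, j0 ≤ j → c j ≤ 1 := by
    intro j hj
    have h2 := hgj j hj
    have h3 : 0 ≤ k j / (b : ℝ) ^ k j := by positivity
    have h4 : g j = c j + k j / (b : ℝ) ^ k j := rfl
    linarith
  have hex : ∀ j, ∃ S : Finset (Fin (k j) → Fin b), j0 ≤ j → (Closed S ∧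
      c j * (b : ℝ) ^ k j ≤ S.card ∧ (S.card : ℝ) ≤ c j * (b : ℝ) ^ k j + k j) := by
    intro j
    by_cases hj : j0 ≤ j
    · have h2 := hcj j hj
      have h3 := hc0 j
      obtain ⟨S, hS1, hS2, hS3⟩ := exists_closed (b := b) (hk0 j) (t := c j * (b : ℝ) ^ k j)
        (by positivity) (by
          have : (0 : ℝ) < (b : ℝ) ^ k j := by positivity
          nlinarith)
      exact ⟨S, fun _ => ⟨hS1, hS2, hS3⟩⟩
    · exact ⟨∅, fun h => absurd h hj⟩
  choose S' hS' using hex
  set S : ∀ j, Finset (Fin (k j) → Fin b) := fun j => if j0 ≤ j then S' j else ∅ with hS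
  have hSj : ∀ j, j0 ≤ j → S j = S' j := fun j hj => by simp only [hS, hj, if_true]
  have hSj2 : ∀ j, ¬ j0 ≤ j → S j = ∅ := fun j hj => by simp only [hS, hj, if_false]
  have hsum : ∀ n, ∑ j ∈ Finset.range n, ((S j).card : ℝ) / (b : ℝ) ^ k j ≤ 1 / 2 := by
    intro n
    have h2 : ∀ j, ((S j).card : ℝ) / (b : ℝ) ^ k j ≤ if j0 ≤ j then g j else 0 := by
      intro j
      by_cases hj : j0 ≤ j
      · rw [if_pos hj, hSj j hj, div_le_iff₀ (by positivity)]
        refine (hS' j hj).2.2.trans (le_of_eq ?_)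
        simp only [hg]
        field_simp
      · rw [if_neg hj, hSj2 j hj]
        simp
    calc ∑ j ∈ Finset.range n, ((S j).card : ℝ) / (b : ℝ) ^ k j
        ≤ ∑ j ∈ Finset.range n, if j0 ≤ j then g j else 0 := Finset.sum_le_sum fun j _ => h2 j
      _ ≤ ∑ j ∈ Finset.range (j0 + n), if j0 ≤ j then g j else 0 := by
          apply Finset.sum_le_sum_of_subset_of_nonneg
          · intro j hj
            rw [Finset.mem_range] at hj ⊢
            omega
          · intro j _ _
            split_ifs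
            · exact hg0 j
            · exact le_refl _
      _ = ∑ m ∈ Finset.range n, g (m + j0) := by
          rw [Finset.sum_range_add]
          have h3 : ∑ j ∈ Finset.range j0, (if j0 ≤ j then g j else 0) = 0 := by
            apply Finset.sum_eq_zero
            intro j hj
            rw [Finset.mem_range] at hj
            rw [if_neg (by omega)]
          rw [h3, zero_add]
          apply Finset.sum_congr rfl
          intro m _
          rw [if_pos (by omega), add_comm]
      _ ≤ ∑' m, g (m + j0) := by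
          have h3 : Summable fun m => g (m + j0) := (summable_nat_add_iff j0).2 hgs
          exact h3.sum_le_tsum _ (fun m _ => hg0 _)
      _ ≤ 1 / 2 := hj0.le
  obtain ⟨L, hL1, hL2⟩ := exists_label hb k hk0 hk.monotone S hsum
  refine ⟨stretch L, ?_, ?_, ?_⟩
  · intro N
    refine ⟨(b * N + (b - 1)) ^ 2 + 0, ?_, ?_⟩
    · have h2 : N ≤ b * N + (b - 1) := by nlinarith
      have h3 : b * N + (b - 1) ≤ (b * N + (b - 1)) ^ 2 := by
        rw [sq]
        exact Nat.le_mul_self _
      omega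
    · rw [stretch_eq L (by omega), hL2 _ (by
        rw [Nat.mul_add_mod]
        exact Nat.mod_eq_of_lt (by omega))]
  · intro hcon
    have h2 := zeros_ge (L := L) (M := b) (ρ := b - 1) (by omega) hL2 3
      (ε := 1 / 2) (by norm_num)
    have h3 := ge_of_tendsto hcon h2
    have h4 : (1 : ℝ) / b ^ 3 < (1 - 1 / 2) / b := by
      rw [div_lt_div_iff₀ (by positivity) hb0]
      have : (b : ℝ) ^ 3 = b * b * b := by ring
      rw [this]
      nlinarith [mul_pos hb0 hb0]
    linarith
  · filter_upwards [eventually_ge_atTop j0] with j hj ε hε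
    have hcl := (hS' j hj).1
    have hL : ∀ w ∈ S' j, ∃ ρ, ρ < b ^ k j ∧ ∀ t, t % b ^ k j = ρ → L t = per w := by
      intro w hw
      rw [← hSj j hj] at hw
      exact hL1 j w hw
    have hge : ∀ w ∈ S' j, ∀ᶠ N : ℕ in atTop,
        (1 - ε) / (b : ℝ) ^ k j ≤ (count (stretch L) N w : ℝ) / N := by
      intro w hw
      have h2 := count_ge (hk0 j) hcl (by positivity) hL hw hε
      push_cast at h2
      exact h2
    unfold prop
    rw [le_div_iff₀ (by positivity)]
    refine (hS' j hj).2.1.trans ?_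
    have h2 : S' j ⊆ Finset.univ.filter fun w : Fin (k j) → Fin b => ∀ᶠ N : ℕ in atTop,
        (1 - ε) / (b : ℝ) ^ k j ≤ (count (stretch L) N w : ℝ) / N := by
      intro w hw
      rw [Finset.mem_filter]
      exact ⟨Finset.mem_univ _, hge w hw⟩
    exact_mod_cast Finset.card_le_card h2

omit [NeZero b] in
lemma ofDigits_lt_one (hb : 2 ≤ b) (a : ℕ → Fin b) (j : ℕ) (hj : (a j : ℕ) ≠ b - 1) :
    Real.ofDigits a < 1 := by
  have h1 := Real.ofDigits_const_last_eq_one' (b := b) (by omega)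
  rw [← h1]
  unfold Real.ofDigits
  refine Summable.tsum_lt_tsum (i := j) (fun n => ?_) ?_ Real.summable_ofDigitsTerm
    Real.summable_ofDigitsTerm
  · unfold Real.ofDigitsTerm
    refine mul_le_mul_of_nonneg_right ?_ (by positivity)
    have h2 := (a n).2
    have h3 : (a n : ℕ) ≤ b - 1 := by omega
    show ((a n : ℕ) : ℝ) ≤ ((b - 1 : ℕ) : ℝ)
    exact_mod_cast h3
  · unfold Real.ofDigitsTerm
    refine mul_lt_mul_of_pos_right ?_ (by positivity)
    have h2 := (a j).2
    have h3 : (a j : ℕ) < b - 1 := by omega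
    show ((a j : ℕ) : ℝ) < ((b - 1 : ℕ) : ℝ)
    exact_mod_cast h3

/-- a real number with given digits -/
theorem exists_real (hb : 2 ≤ b) (a : ℕ → Fin b) (ha : ∀ N, ∃ n, N ≤ n ∧ a n = 0) :
    ∃ y : ℝ, ∀ i : ℕ, ⌊y * (b : ℝ) ^ (i + 1)⌋ % (b : ℤ) = ((a i : ℕ) : ℤ) := by
  have hb0 : (b : ℝ) ≠ 0 := by exact_mod_cast (NeZero.ne b)
  refine ⟨Real.ofDigits a, fun i => ?_⟩
  have h1 := Real.ofDigits_eq_sum_add_ofDigits a (i + 1)
  have h2 : Real.ofDigits a * (b : ℝ) ^ (i + 1) =
      ((∑ j ∈ Finset.range (i + 1), (a j : ℕ) * b ^ (i - j) : ℕ) : ℝ) +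
        Real.ofDigits (fun j => a (j + (i + 1))) := by
    rw [h1, add_mul, Finset.sum_mul]
    congr 1
    · push_cast
      refine Finset.sum_congr rfl fun j hj => ?_
      rw [Finset.mem_range] at hj
      unfold Real.ofDigitsTerm
      have : (b : ℝ) ^ (i + 1) = (b : ℝ) ^ (j + 1) * (b : ℝ) ^ (i - j) := by
        rw [← pow_add]; congr 1; omega
      rw [this]
      field_simp
    · rw [mul_comm, ← mul_assoc, mul_inv_cancel₀ (pow_ne_zero _ hb0), one_mul]
  have h3 : 0 ≤ Real.ofDigits (fun j => a (j + (i + 1))) := Real.ofDigits_nonneg _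
  have h4 : Real.ofDigits (fun j => a (j + (i + 1))) < 1 := by
    obtain ⟨n, hn, hne⟩ := ha (i + 1)
    refine ofDigits_lt_one hb _ (n - (i + 1)) ?_
    have h5 : n - (i + 1) + (i + 1) = n := by omega
    show (a (n - (i + 1) + (i + 1)) : ℕ) ≠ b - 1
    rw [h5, hne]
    simp
    omega
  have h5 : ⌊Real.ofDigits a * (b : ℝ) ^ (i + 1)⌋ =
      ((∑ j ∈ Finset.range (i + 1), (a j : ℕ) * b ^ (i - j) : ℕ) : ℤ) := by
    rw [h2, Int.floor_natCast_add, Int.floor_eq_zero_iff.2 ⟨h3, h4⟩, add_zero]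
  rw [h5]
  have h6 : (∑ j ∈ Finset.range (i + 1), (a j : ℕ) * b ^ (i - j)) % b = (a i : ℕ) := by
    rw [Finset.sum_range_succ, Nat.sub_self, pow_zero, mul_one]
    have h7 : b ∣ ∑ j ∈ Finset.range i, (a j : ℕ) * b ^ (i - j) := by
      apply Finset.dvd_sum
      intro j hj
      rw [Finset.mem_range] at hj
      have : i - j = (i - j - 1) + 1 := by omega
      rw [this, pow_succ, ← mul_assoc]
      exact dvd_mul_left _ _
    rw [Nat.add_mod, Nat.mod_eq_zero_of_dvd h7, zero_add, Nat.mod_mod,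
      Nat.mod_eq_of_lt (a i).2]
  exact_mod_cast h6

end Pool.Agent.Q197.WD
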