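import Pool.Agent.Q197.WD.Core

/-! Word frequencies of sequences. -/

set_option autoImplicit false

open Finset Filter Topology

namespace Pool.Agent.Q197.WD

variable {b : ℕ}

/-- the number of the `i < N` at which the word `w` stands in the sequence `a` -/
def count (a : ℕ → Fin b) (N : ℕ) {k : ℕ} (w : Fin k → Fin b) : ℕ :=
  ((Finset.range N).filter fun i => ∀ j : Fin k, a (i + j) = w j).card

lemma count_le (a : ℕ → Fin b) (N : ℕ) {k : ℕ} (w : Fin k → Fin b) : count a N w ≤ N := by
  unfold count
  exact (Finset.card_filter_le _ _).trans (by simp)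

lemma freq_mem (a : ℕ → Fin b) (N : ℕ) {k : ℕ} (w : Fin k → Fin b) :
    (count a N w : ℝ) / N ∈ Set.Icc (0 : ℝ) 1 := by
  constructor
  · positivity
  · have : (count a N w : ℝ) ≤ N := by exact_mod_cast count_le a N w
    exact div_le_one_of_le₀ this (by positivity)

lemma match_append (a : ℕ → Fin b) (i k l : ℕ) (u : Fin k → Fin b) (v : Fin l → Fin b) :
    (∀ j : Fin (k + l), a (i + j) = Fin.append u v j) ↔
      (∀ j : Fin k, a (i + j) = u j) ∧ (∀ j : Fin l, a (i + k + j) = v j) := by
  constructor
  · intro h
    refine ⟨fun j => ?_, fun j => ?_⟩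
    · have := h (Fin.castAdd l j)
      rw [Fin.append_left] at this
      exact this
    · have := h (Fin.natAdd k j)
      rw [Fin.append_right] at this
      rw [← this, add_assoc]
      rfl
  · rintro ⟨h1, h2⟩ j
    refine Fin.addCases (fun j => ?_) (fun j => ?_) j
    · rw [Fin.append_left]
      exact h1 j
    · rw [Fin.append_right, ← h2 j, add_assoc]
      rfl

lemma sum_right (a : ℕ → Fin b) (N k l : ℕ) (u : Fin k → Fin b) :
    ∑ v : Fin l → Fin b, count a N (Fin.append u v) = count a N u := by
  classical
  unfold count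
  simp_rw [match_append, Finset.card_filter]
  rw [Finset.sum_comm]
  apply Finset.sum_congr rfl
  intro i _
  by_cases h : ∀ j : Fin k, a (i + j) = u j
  · simp only [h, true_and, if_true, implies_true]
    rw [Finset.sum_eq_single (fun j : Fin l => a (i + k + j))]
    · simp
    · intro v _ hv
      rw [if_neg]
      intro h2
      apply hv
      funext j
      exact (h2 j).symm
    · intro h2
      exact absurd (Finset.mem_univ _) h2
  · simp only [h, false_and, if_false, Finset.sum_const_zero]

lemma sum_left (a : ℕ → Fin b) (N k l : ℕ) (v : Fin l → Fin b) :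
    (∑ u : Fin k → Fin b, count a N (Fin.append u v)) + count a k v = count a (k + N) v := by
  classical
  have h1 : ∑ u : Fin k → Fin b, count a N (Fin.append u v) =
      ((Finset.range N).filter fun i => ∀ j : Fin l, a (i + k + j) = v j).card := by
    unfold count
    simp_rw [match_append, Finset.card_filter]
    rw [Finset.sum_comm]
    apply Finset.sum_congr rfl
    intro i _
    by_cases h : ∀ j : Fin l, a (i + k + j) = v j
    · simp only [h, and_true, if_true, implies_true]
      rw [Finset.sum_eq_single (fun j : Fin k => a (i + j))]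
      · simp
      · intro u _ hu
        rw [if_neg]
        intro h2
        apply hu
        funext j
        exact (h2 j).symm
      · intro h2
        exact absurd (Finset.mem_univ _) h2
    · simp only [h, and_false, if_false, Finset.sum_const_zero]
  rw [h1]
  unfold count
  simp_rw [Finset.card_filter]
  rw [Finset.sum_range_add, add_comm]
  congr 1
  apply Finset.sum_congr rfl
  intro i _
  rw [add_comm k i]

lemma exists_lim (U : Ultrafilter ℕ) (g : ℕ → ℝ) (hg : ∀ n, g n ∈ Set.Icc (0 : ℝ) 1) :
    ∃ x : ℝ, Tendsto g U (𝓝 x) := by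
  have h1 : Set.Icc (0 : ℝ) 1 ∈ (U.map g : Filter ℝ) := by
    rw [Ultrafilter.coe_map, Filter.mem_map]
    exact Filter.univ_mem' hg
  obtain ⟨x, _, hx⟩ := isCompact_Icc.ultrafilter_le_nhds (U.map g) (by
    rw [le_principal_iff]
    exact h1)
  exact ⟨x, hx⟩

/-- the frequency of a word along an ultrafilter -/
noncomputable def lfreq (U : Ultrafilter ℕ) (a : ℕ → Fin b) (k : ℕ) (w : Fin k → Fin b) : ℝ :=
  Classical.choose (exists_lim U (fun N => (count a N w : ℝ) / N) (fun N => freq_mem a N w))

lemma lfreq_spec (U : Ultrafilter ℕ) (a : ℕ → Fin b) (k : ℕ) (w : Fin k → Fin b) :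
    Tendsto (fun N : ℕ => (count a N w : ℝ) / N) U (𝓝 (lfreq U a k w)) :=
  Classical.choose_spec (exists_lim U (fun N => (count a N w : ℝ) / N) (fun N => freq_mem a N w))

/-- the shift invariant system of a sequence and an ultrafilter -/
noncomputable def sysOf (U : Ultrafilter ℕ) (hU : (U : Filter ℕ) ≤ atTop) (a : ℕ → Fin b) :
    Sys b where
  q := lfreq U a
  nonneg := by
    intro k w
    exact ge_of_tendsto (lfreq_spec U a k w) (Eventually.of_forall fun N => (freq_mem a N w).1)
  empty := by
    intro w
    refine tendsto_nhds_unique (lfreq_spec U a 0 w) ?_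
    have h1 : ∀ᶠ N : ℕ in (U : Filter ℕ), (count a N w : ℝ) / N = 1 := by
      filter_upwards [hU (eventually_gt_atTop 0)] with N hN
      have : count a N w = N := by
        unfold count
        rw [Finset.filter_true_of_mem]
        · simp
        · intro i _ j
          exact j.elim0
      rw [this]
      have : (N : ℝ) ≠ 0 := by exact_mod_cast (Nat.pos_iff_ne_zero.1 hN)
      field_simp
    exact (tendsto_congr' h1).2 tendsto_const_nhds
  right := by
    intro k l u
    have h1 : Tendsto (fun N : ℕ => ∑ v : Fin l → Fin b, (count a N (Fin.append u v) : ℝ) / N) U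
        (𝓝 (∑ v : Fin l → Fin b, lfreq U a (k + l) (Fin.append u v))) :=
      tendsto_finsetSum _ fun v _ => lfreq_spec U a (k + l) (Fin.append u v)
    refine tendsto_nhds_unique h1 ?_
    refine (lfreq_spec U a k u).congr fun N => ?_
    rw [← Finset.sum_div, ← Nat.cast_sum, sum_right]
  left := by
    intro k l v
    have h1 : Tendsto (fun N : ℕ => ∑ u : Fin k → Fin b, (count a N (Fin.append u v) : ℝ) / N) U
        (𝓝 (∑ u : Fin k → Fin b, lfreq U a (k + l) (Fin.append u v))) :=
      tendsto_finsetSum _ fun u _ => lfreq_spec U a (k + l) (Fin.append u v)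
    have h2 : Tendsto (fun N : ℕ => (∑ u : Fin k → Fin b, (count a N (Fin.append u v) : ℝ) / N) -
        (count a N v : ℝ) / N) U (𝓝 0) := by
      have h3 : Tendsto (fun N : ℕ => (k : ℝ) / N) U (𝓝 0) :=
        (tendsto_const_nhds.div_atTop tendsto_natCast_atTop_atTop).mono_left hU
      refine squeeze_zero_norm (fun N => ?_) h3
      rw [← Finset.sum_div, ← sub_div, Real.norm_eq_abs, abs_div, Nat.abs_cast, ← Nat.cast_sum]
      apply div_le_div_of_nonneg_right _ (by positivity)
      have h4 := sum_left a N k l v
      have h5 : count a k v ≤ k := count_le a k v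
      have h6 : count a N v ≤ count a (k + N) v := by
        unfold count
        apply Finset.card_le_card
        apply Finset.filter_subset_filter
        intro i hi
        rw [Finset.mem_range] at hi ⊢
        omega
      have h7 : count a (k + N) v ≤ count a N v + k := by
        unfold count
        rw [add_comm k N]
        simp_rw [Finset.card_filter]
        rw [Finset.sum_range_add]
        apply Nat.add_le_add_left
        calc _ ≤ ∑ _i ∈ Finset.range k, 1 := by
              apply Finset.sum_le_sum
              intro i _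
              split_ifs <;> simp
          _ = k := by simp
      rw [abs_le]
      have h8 : ((∑ u : Fin k → Fin b, count a N (Fin.append u v) : ℕ) : ℝ) + count a k v =
          count a (k + N) v := by exact_mod_cast h4
      have h9 : (count a k v : ℝ) ≤ k := by exact_mod_cast h5
      have h10 : (count a N v : ℝ) ≤ count a (k + N) v := by exact_mod_cast h6
      have h11 : (count a (k + N) v : ℝ) ≤ count a N v + k := by exact_mod_cast h7
      have h12 : (0 : ℝ) ≤ count a k v := by positivity
      constructor <;> linarith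
    have h3 := h2.add (lfreq_spec U a l v)
    rw [zero_add] at h3
    refine tendsto_nhds_unique h1 (h3.congr fun N => ?_)
    ring

variable [NeZero b]

/-- **Theorem for sequences.** -/
theorem seq_summable (a : ℕ → Fin b) {k0 : ℕ} {w0 : Fin k0 → Fin b}
    (h : ¬ Tendsto (fun N : ℕ => (count a N w0 : ℝ) / N) atTop (𝓝 (1 / (b : ℝ) ^ k0))) :
    ∃ ε : ℝ, 0 < ε ∧ ∀ k : ℕ → ℕ, (∀ j, 0 < k j) → (∀ j, 2 * k j ≤ k (j + 1)) →
      Summable fun j => prop b (k j) (fun w : Fin (k j) → Fin b =>
        ∀ᶠ N : ℕ in atTop, (1 - ε) / (b : ℝ) ^ k j ≤ (count a N w : ℝ) / N) := by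
  classical
  -- an ultrafilter
  rw [Metric.tendsto_nhds] at h
  push Not at h
  obtain ⟨η, hη, hfreq⟩ := h
  rw [Filter.frequently_iff_neBot] at hfreq
  set F := atTop ⊓ 𝓟 {N : ℕ | η ≤ dist ((count a N w0 : ℝ) / N) (1 / (b : ℝ) ^ k0)} with hF
  have hne : F.NeBot := hfreq
  set U : Ultrafilter ℕ := Ultrafilter.of F with hUdef
  have hUF : (U : Filter ℕ) ≤ F := Ultrafilter.of_le F
  have hU : (U : Filter ℕ) ≤ atTop := hUF.trans inf_le_left
  have hU2 : ∀ᶠ N : ℕ in (U : Filter ℕ), η ≤ dist ((count a N w0 : ℝ) / N) (1 / (b : ℝ) ^ k0) := by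
    have : (U : Filter ℕ) ≤ 𝓟 {N : ℕ | η ≤ dist ((count a N w0 : ℝ) / N) (1 / (b : ℝ) ^ k0)} :=
      hUF.trans inf_le_right
    rw [le_principal_iff] at this
    exact this
  have hne0 : (sysOf U hU a).q k0 w0 ≠ 1 / (b : ℝ) ^ k0 := by
    intro heq
    have h1 := lfreq_spec U a k0 w0
    have h2 : Tendsto (fun N : ℕ => dist ((count a N w0 : ℝ) / N) (1 / (b : ℝ) ^ k0)) U
        (𝓝 (dist (lfreq U a k0 w0) (1 / (b : ℝ) ^ k0))) := h1.dist tendsto_const_nhds
    have h3 := ge_of_tendsto h2 hU2
    have h4 : lfreq U a k0 w0 = 1 / (b : ℝ) ^ k0 := heq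
    rw [h4, dist_self] at h3
    linarith
  obtain ⟨ε, hε, hsum⟩ := summable_prop (sysOf U hU a) hne0
  refine ⟨ε, hε, fun k hk1 hk2 => ?_⟩
  refine Summable.of_nonneg_of_le (fun j => ?_) (fun j => ?_) (hsum k hk1 hk2)
  · unfold prop; positivity
  · unfold prop
    apply div_le_div_of_nonneg_right _ (by positivity)
    have : (Finset.univ.filter fun w : Fin (k j) → Fin b => ∀ᶠ N : ℕ in atTop,
        (1 - ε) / (b : ℝ) ^ k j ≤ (count a N w : ℝ) / N) ⊆
        (Finset.univ.filter fun w => (1 - ε) / (b : ℝ) ^ k j ≤ (sysOf U hU a).q (k j) w) := by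
      intro w hw
      rw [Finset.mem_filter] at hw ⊢
      exact ⟨hw.1, ge_of_tendsto (lfreq_spec U a (k j) w) (hU hw.2)⟩
    exact_mod_cast Finset.card_le_card this

end Pool.Agent.Q197.WD
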