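import Pool.Agent.Q197.WD.Label

/-! A labelling of the integers by words such that every word of a given family stands at the
integers of a residue class. -/

set_option autoImplicit false

open Finset Filter Topology

namespace Pool.Agent.Q197.WD

variable {b : ℕ} [NeZero b]

/-- the periodic sequence given by a word -/
def per {k : ℕ} (w : Fin k → Fin b) : ℕ → Fin b :=
  fun r => if h : 0 < k then w ⟨r % k, Nat.mod_lt _ h⟩ else 0

theorem exists_label (hb : 2 ≤ b) (k : ℕ → ℕ) (hk0 : ∀ j, 0 < k j) (hk : Monotone k)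
    (S : ∀ j, Finset (Fin (k j) → Fin b))
    (hS : ∀ n, ∑ j ∈ Finset.range n, ((S j).card : ℝ) / (b : ℝ) ^ k j ≤ 1 / 2) :
    ∃ L : ℕ → ℕ → Fin b,
      (∀ j, ∀ w ∈ S j, ∃ ρ, ρ < b ^ k j ∧ ∀ t, t % b ^ k j = ρ → L t = per w) ∧
      (∀ t, t % b = b - 1 → L t = fun _ => 0) := by
  classical
  have hb0 : 0 < b := by omega
  have hbr : (0 : ℝ) < b := by exact_mod_cast hb0
  set B : ℕ → ℕ := fun j => ∑ i ∈ Finset.range j, (S i).card * b ^ (k j - k i) with hB
  -- the size of `B`
  have hBr : ∀ j, (B j : ℝ) + (S j).card ≤ (b : ℝ) ^ k j / 2 := by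
    intro j
    have h1 : (B j : ℝ) = (b : ℝ) ^ k j * ∑ i ∈ Finset.range j, ((S i).card : ℝ) / (b : ℝ) ^ k i := by
      rw [hB, Finset.mul_sum]
      push_cast
      apply Finset.sum_congr rfl
      intro i hi
      rw [Finset.mem_range] at hi
      have h2 : (b : ℝ) ^ k j = (b : ℝ) ^ (k j - k i) * (b : ℝ) ^ k i := by
        rw [← pow_add]
        congr 1
        have := hk hi.le
        omega
      rw [h2]
      field_simp
    have h2 := hS (j + 1)
    rw [Finset.sum_range_succ] at h2
    rw [h1]
    have h3 : ((S j).card : ℝ) = (b : ℝ) ^ k j * (((S j).card : ℝ) / (b : ℝ) ^ k j) := by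
      field_simp
    calc _ = (b : ℝ) ^ k j * (∑ i ∈ Finset.range j, ((S i).card : ℝ) / (b : ℝ) ^ k i +
          ((S j).card : ℝ) / (b : ℝ) ^ k j) := by rw [mul_add, ← h3]
      _ ≤ (b : ℝ) ^ k j * (1 / 2) := by gcongr
      _ = _ := by ring
  have hBn : ∀ j, 2 * (B j + (S j).card) ≤ b ^ k j := by
    intro j
    have h := hBr j
    have : (2 : ℝ) * ((B j : ℝ) + (S j).card) ≤ (b : ℝ) ^ k j := by linarith
    exact_mod_cast this
  have hBmono : ∀ i j, i < j → (B i + (S i).card) * b ^ (k j - k i) ≤ B j := by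
    intro i j hij
    have h1 : (B i + (S i).card) * b ^ (k j - k i) =
        ∑ m ∈ Finset.range (i + 1), (S m).card * b ^ (k j - k m) := by
      rw [Finset.sum_range_succ, add_mul, hB, Finset.sum_mul]
      congr 1
      apply Finset.sum_congr rfl
      intro m hm
      rw [Finset.mem_range] at hm
      rw [mul_assoc, ← pow_add]
      congr 2
      have := hk hm.le
      have := hk hij.le
      omega
    rw [h1]
    apply Finset.sum_le_sum_of_subset
    intro m hm
    rw [Finset.mem_range] at hm ⊢
    omega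
  -- the relation
  let R : ℕ → (Σ j, {w // w ∈ S j}) → Prop := fun t p =>
    rev b (k p.1) t = B p.1 + ((S p.1).equivFin p.2 : ℕ)
  have hlt : ∀ t p, R t p → rev b (k p.1) t < B p.1 + (S p.1).card := by
    intro t p hp
    have h1 : rev b (k p.1) t = B p.1 + ((S p.1).equivFin p.2 : ℕ) := hp
    rw [h1]
    have := ((S p.1).equivFin p.2).2
    omega
  have huniq : ∀ t p p', R t p → R t p' → p = p' := by
    intro t p p' hp hp'
    have hne : ∀ q q' : (Σ j, {w // w ∈ S j}), R t q → R t q' → ¬ q.1 < q'.1 := by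
      intro q q' hq hq' hlt'
      have h1 := hlt t q hq
      have h2 : rev b (k q'.1) t = B q'.1 + ((S q'.1).equivFin q'.2 : ℕ) := hq'
      have h3 := hBmono q.1 q'.1 hlt'
      have h4 := rev_div hb0 (k q.1) (k q'.1 - k q.1) t
      have h5 : k q.1 + (k q'.1 - k q.1) = k q'.1 := by
        have := hk hlt'.le
        omega
      rw [h5] at h4
      have h6 : B q.1 + (S q.1).card ≤ rev b (k q'.1) t / b ^ (k q'.1 - k q.1) := by
        rw [Nat.le_div_iff_mul_le (by positivity)]
        omega
      omega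
    obtain ⟨j, w⟩ := p
    obtain ⟨j', w'⟩ := p'
    have hj : j = j' := by
      rcases lt_trichotomy j j' with h | h | h
      · exact absurd h (hne _ _ hp hp')
      · exact h
      · exact absurd h (hne _ _ hp' hp)
    subst hj
    have h1 : rev b (k j) t = B j + ((S j).equivFin w : ℕ) := hp
    have h2 : rev b (k j) t = B j + ((S j).equivFin w' : ℕ) := hp'
    have h3 : (S j).equivFin w = (S j).equivFin w' := by
      ext
      omega
    have := (S j).equivFin.injective h3
    rw [this]
  refine ⟨fun t => if h : ∃ p, R t p then per (Classical.choose h).2.1 else fun _ => 0, ?_, ?_⟩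
  · intro j w hw
    have hidx := ((S j).equivFin ⟨w, hw⟩).2
    have h1 := hBn j
    obtain ⟨ρ, hρ, h2⟩ := rev_surj hb0 (k j) (B j + ((S j).equivFin ⟨w, hw⟩ : ℕ)) (by omega)
    refine ⟨ρ, hρ, fun t ht => ?_⟩
    have h3 : R t ⟨j, w, hw⟩ := h2 t ht
    have h4 : ∃ p, R t p := ⟨_, h3⟩
    show (if h : ∃ p, R t p then per (Classical.choose h).2.1 else fun _ => 0) = _
    rw [dif_pos h4]
    have h5 := huniq t _ _ (Classical.choose_spec h4) h3
    rw [h5]
  · intro t ht
    show (if h : ∃ p, R t p then per (Classical.choose h).2.1 else fun _ => 0) = _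
    rw [dif_neg]
    rintro ⟨p, hp⟩
    have h1 := hlt t p hp
    have h2 := hBn p.1
    have h3 := rev_div hb0 1 (k p.1 - 1) t
    have h4 : 1 + (k p.1 - 1) = k p.1 := by
      have := hk0 p.1
      omega
    rw [h4] at h3
    have h5 : rev b 1 t = b - 1 := by
      simp [rev, ht]
    rw [h5] at h3
    have h6 : (b - 1) * b ^ (k p.1 - 1) ≤ rev b (k p.1) t := by
      rw [← h3]
      exact Nat.div_mul_le_self _ _
    have h7 : b ^ k p.1 = b * b ^ (k p.1 - 1) := by
      rw [← pow_succ']
      congr 1
      omega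
    have h8 : b * b ^ (k p.1 - 1) ≤ 2 * ((b - 1) * b ^ (k p.1 - 1)) := by
      rw [← mul_assoc]
      apply Nat.mul_le_mul_right
      omega
    omega

/-- the sequence made of stretches of length `2 t + 1` of the periodic sequences `L t` -/
def stretch (L : ℕ → ℕ → Fin b) (n : ℕ) : Fin b := L (Nat.sqrt n) (n - Nat.sqrt n ^ 2)

omit [NeZero b] in
lemma stretch_eq (L : ℕ → ℕ → Fin b) {t r : ℕ} (hr : r ≤ 2 * t) :
    stretch L (t ^ 2 + r) = L t r := by
  have h1 : Nat.sqrt (t ^ 2 + r) = t := by
    rw [sq]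
    apply Nat.sqrt_add_eq
    omega
  unfold stretch
  rw [h1, Nat.add_sub_cancel_left]

/-- the number of pairs in the density lemma -/
lemma pairs_card (M k l ρ i : ℕ) (hk : 0 < k) (N : ℕ) :
    ∃ D : Finset ℕ, (∀ n ∈ D, n < N ∧ ∃ t v, n = t ^ 2 + (i + k * v) ∧ i + k * v + l ≤ 2 * t ∧
        t % M = ρ % M) ∧
      ∑ u ∈ Finset.range (Nat.sqrt N / M - 1), ((2 * (ρ % M + M * u) - (l + i)) / k) ≤ D.card := by
  classical
  rcases Nat.eq_zero_or_pos M with hM | hM
  · subst hM
    exact ⟨∅, by simp, by simp⟩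
  set T : ℕ → ℕ := fun u => ρ % M + M * u with hT
  set V : ℕ → ℕ := fun u => (2 * T u - (l + i)) / k with hV
  set P := (Finset.range (Nat.sqrt N / M - 1)).sigma fun u => Finset.range (V u) with hP
  have hr : ∀ u v, v < V u → i + k * v + l ≤ 2 * T u := by
    intro u v hv
    have h1 : (v + 1) * k ≤ 2 * T u - (l + i) := by
      have h3 : V u * k ≤ 2 * T u - (l + i) := Nat.div_mul_le_self (2 * T u - (l + i)) k
      have h2 : (v + 1) * k ≤ V u * k := Nat.mul_le_mul_right _ hv
      omega
    have h3 : (v + 1) * k = k * v + k := by ring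
    omega
  refine ⟨P.image fun p => T p.1 ^ 2 + (i + k * p.2), ?_, ?_⟩
  · intro n hn
    rw [Finset.mem_image] at hn
    obtain ⟨⟨u, v⟩, hp, rfl⟩ := hn
    rw [hP, Finset.mem_sigma, Finset.mem_range, Finset.mem_range] at hp
    have h1 := hr u v hp.2
    refine ⟨?_, T u, v, rfl, h1, ?_⟩
    · -- size
      have h2 : T u + 1 ≤ Nat.sqrt N := by
        have h3 : u + 1 < Nat.sqrt N / M := by
          have := hp.1
          simp only at this
          omega
        have h4 : (u + 2) * M ≤ Nat.sqrt N :=
          (Nat.mul_le_mul_right M h3).trans (Nat.div_mul_le_self _ _)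
        have h5 : ρ % M < M := Nat.mod_lt _ hM
        have h6 : T u = ρ % M + M * u := rfl
        have h7 : (u + 2) * M = M * u + M + M := by ring
        omega
      have h3 : (T u + 1) ^ 2 ≤ N := by
        calc (T u + 1) ^ 2 ≤ (Nat.sqrt N) ^ 2 := Nat.pow_le_pow_left h2 2
          _ ≤ N := Nat.sqrt_le' N
      have h4 : (T u + 1) ^ 2 = T u ^ 2 + 2 * T u + 1 := by ring
      simp only
      omega
    · rw [hT]
      simp
  · rw [Finset.card_image_of_injOn]
    · rw [hP, Finset.card_sigma]
      simp only [Finset.card_range]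
      exact le_refl _
    · rintro ⟨u, v⟩ hp ⟨u', v'⟩ hp' heq
      rw [Finset.mem_coe, hP, Finset.mem_sigma, Finset.mem_range, Finset.mem_range] at hp hp'
      simp only at heq hp hp'
      have h1 := hr u v hp.2
      have h2 := hr u' v' hp'.2
      have h3 : T u = T u' := by
        have e1 : Nat.sqrt (T u ^ 2 + (i + k * v)) = T u := by
          rw [sq]; apply Nat.sqrt_add_eq; omega
        have e2 : Nat.sqrt (T u' ^ 2 + (i + k * v')) = T u' := by
          rw [sq]; apply Nat.sqrt_add_eq; omega
        rw [← e1, ← e2, heq]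
      have h4 : u = u' := by
        have : M * u = M * u' := by
          have : ρ % M + M * u = ρ % M + M * u' := h3
          omega
        exact Nat.eq_of_mul_eq_mul_left hM this
      subst h4
      have h5 : v = v' := by
        have : k * v = k * v' := by omega
        exact Nat.eq_of_mul_eq_mul_left hk this
      rw [h5]

end Pool.Agent.Q197.WD
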