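import Pool.Agent.Q197.WD.Freq

/-! Rotation invariant sets of words and a labelling of the integers. -/

set_option autoImplicit false

open Finset Filter Topology

namespace Pool.Agent.Q197.WD

variable {b : ℕ}

/-- rotation of a word -/
def rot {k : ℕ} (s : ℕ) (w : Fin k → Fin b) : Fin k → Fin b :=
  fun i => w ⟨(i + s) % k, Nat.mod_lt _ (lt_of_le_of_lt (Nat.zero_le _) i.2)⟩

lemma rot_rot {k : ℕ} (s t : ℕ) (w : Fin k → Fin b) : rot s (rot t w) = rot (s + t) w := by
  funext i
  unfold rot
  congr 1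
  ext
  simp only [Nat.mod_add_mod]
  rw [add_assoc]

lemma rot_mod {k : ℕ} (s : ℕ) (w : Fin k → Fin b) : rot (s % k) w = rot s w := by
  funext i
  unfold rot
  congr 1
  ext
  simp only [Nat.add_mod_mod]

lemma rot_self {k : ℕ} (w : Fin k → Fin b) : rot k w = w := by
  funext i
  unfold rot
  congr 1
  ext
  simp only [Nat.add_mod_right]
  exact Nat.mod_eq_of_lt i.2

lemma rot_mul {k : ℕ} (m : ℕ) (w : Fin k → Fin b) : rot (m * k) w = w := by
  rw [← rot_mod, Nat.mul_mod_left]
  have := rot_self w
  rw [← rot_mod, Nat.mod_self] at this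
  exact this

/-- a set of words closed under rotations -/
def Closed {k : ℕ} (S : Finset (Fin k → Fin b)) : Prop := ∀ w ∈ S, ∀ s, rot s w ∈ S

open Classical in
/-- the rotations of a word -/
noncomputable def orbit {k : ℕ} (w : Fin k → Fin b) : Finset (Fin k → Fin b) :=
  (Finset.range k).image fun s => rot s w

lemma mem_orbit {k : ℕ} (hk : 0 < k) (w : Fin k → Fin b) (s : ℕ) : rot s w ∈ orbit w := by
  classical
  unfold orbit
  rw [Finset.mem_image]
  exact ⟨s % k, Finset.mem_range.2 (Nat.mod_lt _ hk), rot_mod s w⟩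

lemma exists_closed {k : ℕ} (hk : 0 < k) {t : ℝ} (ht0 : 0 ≤ t) (ht : t ≤ (b : ℝ) ^ k) :
    ∃ S : Finset (Fin k → Fin b), Closed S ∧ t ≤ S.card ∧ (S.card : ℝ) ≤ t + k := by
  classical
  -- a minimal closed set with at least `t` elements
  have hne : ∃ n : ℕ, ∃ S : Finset (Fin k → Fin b), Closed S ∧ t ≤ S.card ∧ S.card = n := by
    refine ⟨_, Finset.univ, fun w _ s => Finset.mem_univ _, ?_, rfl⟩
    rw [Finset.card_univ, Fintype.card_fun, Fintype.card_fin, Fintype.card_fin]
    push_cast
    exact ht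
  obtain ⟨S, hS1, hS2, hS3⟩ := Nat.find_spec hne
  refine ⟨S, hS1, hS2, ?_⟩
  by_contra hcon
  rw [not_le] at hcon
  have hSne : S.Nonempty := by
    rw [← Finset.card_pos]
    have : (0 : ℝ) < S.card := by
      have : (0 : ℝ) ≤ k := by positivity
      linarith
    exact_mod_cast this
  obtain ⟨w, hw⟩ := hSne
  have horb : orbit w ⊆ S := by
    intro v hv
    unfold orbit at hv
    rw [Finset.mem_image] at hv
    obtain ⟨s, _, rfl⟩ := hv
    exact hS1 w hw s
  have hcard : (orbit w).card ≤ k := by
    unfold orbit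
    exact Finset.card_image_le.trans (by simp)
  have hpos : 0 < (orbit w).card := Finset.card_pos.2 ⟨rot 0 w, mem_orbit hk w 0⟩
  have hdiff : (S \ orbit w).card = S.card - (orbit w).card := Finset.card_sdiff_of_subset horb
  have hle := Finset.card_le_card horb
  have hclosed : Closed (S \ orbit w) := by
    intro v hv s
    rw [Finset.mem_sdiff] at hv ⊢
    refine ⟨hS1 v hv.1 s, fun h => hv.2 ?_⟩
    unfold orbit at h
    rw [Finset.mem_image] at h
    obtain ⟨s', _, hs'⟩ := h
    have h1 : rot (s * (k - 1)) (rot s v) = v := by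
      rw [rot_rot]
      have : s * (k - 1) + s = s * k := by
        obtain ⟨k', rfl⟩ : ∃ k', k = k' + 1 := ⟨k - 1, by omega⟩
        simp
        ring
      rw [this, rot_mul]
    rw [← h1, ← hs', rot_rot]
    exact mem_orbit hk w _
  have hmin := Nat.find_min hne (m := (S \ orbit w).card) (by
    rw [← hS3, hdiff]
    omega)
  apply hmin
  refine ⟨S \ orbit w, hclosed, ?_, rfl⟩
  rw [hdiff, Nat.cast_sub hle]
  have : ((orbit w).card : ℝ) ≤ k := by exact_mod_cast hcard
  linarith

/-- reversal of the lowest digits -/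
def rev (b : ℕ) : ℕ → ℕ → ℕ
  | 0, _ => 0
  | k + 1, t => b * rev b k t + t / b ^ k % b

lemma rev_lt (hb : 0 < b) (k t : ℕ) : rev b k t < b ^ k := by
  induction k with
  | zero => simp [rev]
  | succ k ih =>
    rw [rev, pow_succ]
    have h1 : t / b ^ k % b < b := Nat.mod_lt _ hb
    calc b * rev b k t + t / b ^ k % b < b * rev b k t + b := by omega
      _ = b * (rev b k t + 1) := by ring
      _ ≤ b * b ^ k := Nat.mul_le_mul_left _ ih
      _ = b ^ k * b := by ring

lemma rev_div (hb : 0 < b) (k m t : ℕ) : rev b (k + m) t / b ^ m = rev b k t := by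
  induction m with
  | zero => simp
  | succ m ih =>
    rw [← add_assoc, rev, pow_succ, mul_comm (b ^ m) b, ← Nat.div_div_eq_div_mul]
    have h1 : t / b ^ (k + m) % b < b := Nat.mod_lt _ hb
    have h2 : (b * rev b (k + m) t + t / b ^ (k + m) % b) / b = rev b (k + m) t := by
      rw [Nat.mul_add_div hb, Nat.div_eq_of_lt h1, add_zero]
    rw [h2, ih]

lemma rev_mod (hb : 0 < b) (k t : ℕ) : rev b k (t % b ^ k) = rev b k t := by
  -- stronger: modulo any larger power
  have h : ∀ m, ∀ t, rev b k (t % b ^ (k + m)) = rev b k t := by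
    induction k with
    | zero => intro m t; simp [rev]
    | succ k ih =>
      intro m t
      rw [rev, rev]
      have h1 := ih (m + 1) t
      have e : k + (m + 1) = k + 1 + m := by ring
      rw [e] at h1
      rw [h1]
      congr 1
      have h2 : b ^ (k + 1 + m) = b ^ k * (b * b ^ m) := by
        rw [pow_add, pow_add, pow_one, mul_assoc]
      rw [h2, Nat.mod_mul_right_div_self, Nat.mod_mul_right_mod]
  have := h 0 t
  rwa [add_zero] at this

lemma rev_surj (hb : 0 < b) (k r : ℕ) (hr : r < b ^ k) :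
    ∃ ρ, ρ < b ^ k ∧ ∀ t, t % b ^ k = ρ → rev b k t = r := by
  induction k generalizing r with
  | zero =>
    refine ⟨0, by simp, fun t _ => ?_⟩
    rw [pow_zero, Nat.lt_one_iff] at hr
    rw [hr]
    rfl
  | succ k ih =>
    have h1 : r / b < b ^ k := by
      rw [Nat.div_lt_iff_lt_mul hb, ← pow_succ]
      exact hr
    obtain ⟨ρ', hρ', h2⟩ := ih (r / b) h1
    have hrb : r % b < b := Nat.mod_lt _ hb
    refine ⟨ρ' + b ^ k * (r % b), ?_, fun t ht => ?_⟩
    · rw [pow_succ]
      calc ρ' + b ^ k * (r % b) < b ^ k + b ^ k * (r % b) := by omega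
        _ = b ^ k * (r % b + 1) := by ring
        _ ≤ b ^ k * b := Nat.mul_le_mul_left _ hrb
    · rw [rev]
      have h3 : t % b ^ k = ρ' := by
        have : t % b ^ (k + 1) % b ^ k = t % b ^ k := by
          rw [pow_succ, Nat.mod_mul_right_mod]
        rw [← this, ht, Nat.add_mul_mod_self_left, Nat.mod_eq_of_lt hρ']
      have h4 : t / b ^ k % b = r % b := by
        have h5 : t % b ^ (k + 1) / b ^ k = t / b ^ k % b := by
          rw [pow_succ, Nat.mod_mul_right_div_self]
        rw [← h5, ht, Nat.add_mul_div_left _ _ (by positivity), Nat.div_eq_of_lt hρ', zero_add]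
      rw [h2 t h3, h4]
      exact Nat.div_add_mod r b

end Pool.Agent.Q197.WD
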