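import Pool.Agent.Q197.WD.Kraft

/-! Sequences with many words of large frequency which are not normal. -/

set_option autoImplicit false

open Finset Filter Topology

namespace Pool.Agent.Q197.WD

variable {b : ℕ} [NeZero b]

lemma density {M k : ℕ} (l i ρ : ℕ) (hM : 0 < M) (hk : 0 < k) {ε : ℝ} (hε : 0 < ε) :
    ∀ᶠ N : ℕ in atTop, (1 - ε) / (k * M) * N ≤
      ((∑ u ∈ Finset.range (Nat.sqrt N / M - 1), ((2 * (ρ % M + M * u) - (l + i)) / k) : ℕ) : ℝ) := by
  have hM' : (0 : ℝ) < M := by exact_mod_cast hM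
  have hM1 : (1 : ℝ) ≤ M := by exact_mod_cast hM
  have hk' : (0 : ℝ) < k := by exact_mod_cast hk
  rcases lt_or_ge 1 ε with h1 | h1
  · filter_upwards with N
    have : (1 - ε) / (k * M) ≤ 0 := div_nonpos_of_nonpos_of_nonneg (by linarith) (by positivity)
    have h2 : (1 - ε) / (k * M) * N ≤ 0 := mul_nonpos_of_nonpos_of_nonneg this (by positivity)
    refine h2.trans (by positivity)
  set c : ℝ := (l : ℝ) + i with hc
  have hc0 : 0 ≤ c := by positivity
  set Y0 : ℝ := (5 * M + c + k + 3) / (ε * M) + 3 with hY0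
  obtain ⟨K, hK⟩ := exists_nat_ge (M * Y0)
  filter_upwards [eventually_ge_atTop (K ^ 2)] with N hN
  have hKs : K ≤ Nat.sqrt N := Nat.le_sqrt'.2 hN
  set X : ℝ := (Nat.sqrt N : ℝ) with hX
  set y : ℝ := X / M with hy
  have hXM : X = M * y := by rw [hy]; field_simp
  have hyY : Y0 ≤ y := by
    rw [hy, le_div_iff₀ hM']
    have : (K : ℝ) ≤ X := by rw [hX]; exact_mod_cast hKs
    linarith
  have hy3 : 3 ≤ y := by
    have : 0 ≤ (5 * M + c + k + 3) / (ε * M) := by positivity
    linarith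
  -- `U`
  set U : ℕ := Nat.sqrt N / M - 1 with hU
  have hUr : y - 2 ≤ U ∧ (U : ℝ) ≤ y := by
    have h2 : X < M * ((Nat.sqrt N / M : ℕ) + 1 : ℝ) := by
      have := Nat.lt_mul_div_succ (Nat.sqrt N) hM
      rw [hX]
      exact_mod_cast this
    have h3 : ((Nat.sqrt N / M : ℕ) : ℝ) * M ≤ X := by
      have := Nat.div_mul_le_self (Nat.sqrt N) M
      rw [hX]
      exact_mod_cast this
    have h4 : y < (Nat.sqrt N / M : ℕ) + 1 := by
      rw [hXM] at h2
      exact lt_of_mul_lt_mul_left h2 hM'.le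
    have h5 : ((Nat.sqrt N / M : ℕ) : ℝ) ≤ y := by
      rw [hy, le_div_iff₀ hM']
      exact h3
    have h6 : 1 ≤ Nat.sqrt N / M := by
      have : (1 : ℝ) < (Nat.sqrt N / M : ℕ) := by linarith
      exact_mod_cast this.le
    have h7 : (U : ℝ) = (Nat.sqrt N / M : ℕ) - 1 := by
      rw [hU, Nat.cast_sub h6, Nat.cast_one]
    rw [h7]
    constructor <;> linarith
  -- the terms
  have hterm : ∀ u : ℕ, (2 * (M * (u : ℝ)) - c) / k - 1 ≤
      (((2 * (ρ % M + M * u) - (l + i)) / k : ℕ) : ℝ) := by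
    intro u
    have h2 : ((2 * (ρ % M + M * u) - (l + i) : ℕ) : ℝ) <
        k * (((2 * (ρ % M + M * u) - (l + i)) / k : ℕ) + 1 : ℝ) := by
      have := Nat.lt_mul_div_succ (2 * (ρ % M + M * u) - (l + i)) hk
      exact_mod_cast this
    have h3 : 2 * (M * (u : ℝ)) - c ≤ ((2 * (ρ % M + M * u) - (l + i) : ℕ) : ℝ) := by
      have h4 : 2 * (M * u) ≤ (2 * (ρ % M + M * u) - (l + i)) + (l + i) := by omega
      have h5 : (2 : ℝ) * (M * u) ≤ ((2 * (ρ % M + M * u) - (l + i) : ℕ) : ℝ) + (l + i) := by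
        exact_mod_cast h4
      rw [hc]
      linarith
    rw [sub_le_iff_le_add, div_le_iff₀ hk']
    linarith
  have hsum : (M * (U * (U - 1)) - c * U) / k - U ≤
      ((∑ u ∈ Finset.range U, ((2 * (ρ % M + M * u) - (l + i)) / k) : ℕ) : ℝ) := by
    push_cast
    calc (M * (U * (U - 1)) - c * U) / k - U
        = ∑ u ∈ Finset.range U, ((2 * (M * (u : ℝ)) - c) / k - 1) := by
          have hg : ∀ m : ℕ, (M * (m * ((m : ℝ) - 1)) - c * m) / k - m =
              ∑ u ∈ Finset.range m, ((2 * (M * (u : ℝ)) - c) / k - 1) := by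
            intro m
            induction m with
            | zero => simp
            | succ m ih =>
              rw [Finset.sum_range_succ, ← ih]
              push_cast
              field_simp
              ring
          exact hg U
      _ ≤ _ := Finset.sum_le_sum fun u _ => by
          have := hterm u
          exact_mod_cast this
  refine le_trans ?_ hsum
  have hN2 : (N : ℝ) ≤ (M * y + 1) ^ 2 := by
    have h2 := (Nat.lt_succ_sqrt' N).le
    rw [← hXM, hX]
    exact_mod_cast h2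
  have hmain : (1 - ε) * (M * y + 1) ^ 2 ≤ M * (M * (U * (U - 1)) - c * U - k * U) := by
    obtain ⟨hU1, hU2⟩ := hUr
    have h2 : (y - 2) ^ 2 ≤ (U : ℝ) ^ 2 := by
      apply pow_le_pow_left₀ (by linarith) hU1
    have h3 : M * ((y - 2) ^ 2) - (M + c + k) * y ≤ M * (U * (U - 1)) - c * U - k * U := by
      have e1 : M * (U * ((U : ℝ) - 1)) - c * U - k * U = M * (U : ℝ) ^ 2 - (M + c + k) * U := by
        ring
      rw [e1]
      have h4 : (M + c + k) * (U : ℝ) ≤ (M + c + k) * y := by gcongr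
      have h5 : (M : ℝ) * (y - 2) ^ 2 ≤ M * (U : ℝ) ^ 2 := by gcongr
      linarith
    have h4 : (5 * M + c + k + 3) ≤ ε * M * (y - 3) := by
      have h5 : (5 * M + c + k + 3) / (ε * M) ≤ y - 3 := by linarith
      rw [div_le_iff₀ (by positivity)] at h5
      linarith
    have hy0 : 0 < y := by linarith
    have h5 : (5 * M + c + k + 3) * y ≤ ε * M * (y - 3) * y := by gcongr
    calc (1 - ε) * (M * y + 1) ^ 2 ≤ M * (M * ((y - 2) ^ 2) - (M + c + k) * y) := by
          have e2 : (1 - ε) * (M * y + 1) ^ 2 ≤ (M * y) ^ 2 - ε * (M * y) ^ 2 + 2 * (M * y) + 1 := by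
            nlinarith [mul_pos hM' hy0]
          have e3 : M * (M * ((y - 2) ^ 2) - (M + c + k) * y) =
              (M * y) ^ 2 - 4 * M ^ 2 * y + 4 * M ^ 2 - M * (M + c + k) * y := by ring
          rw [e3]
          have e4 : M * ((5 * M + c + k + 3) * y) ≤ M * (ε * M * (y - 3) * y) := by gcongr
          have e5 : M * (ε * M * (y - 3) * y) ≤ ε * (M * y) ^ 2 := by
            have : M * (ε * M * (y - 3) * y) = ε * (M * y) ^ 2 - 3 * ε * M ^ 2 * y := by ring
            rw [this]
            have : 0 ≤ 3 * ε * M ^ 2 * y := by positivity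
            linarith
          have e6 : (1 : ℝ) ≤ M * y := by nlinarith
          nlinarith [sq_nonneg (M : ℝ)]
      _ ≤ _ := by gcongr
  have h2 : (1 - ε) / (k * M) * N ≤ (1 - ε) / (k * M) * (M * y + 1) ^ 2 := by
    have : 0 ≤ (1 - ε) / (k * M) := div_nonneg (by linarith) (by positivity)
    gcongr
  refine h2.trans ?_
  have h3 : (1 - ε) / (k * M) * (M * y + 1) ^ 2 = (1 - ε) * (M * y + 1) ^ 2 / (k * M) := by ring
  rw [h3, div_le_iff₀ (by positivity)]
  have h4 : ((M * (U * ((U : ℝ) - 1)) - c * U) / k - U) * (k * M) =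
      M * (M * (U * (U - 1)) - c * U - k * U) := by
    field_simp
  rw [h4]
  exact hmain

/-- the frequency of the words of a closed set used by the labelling -/
lemma count_ge {L : ℕ → ℕ → Fin b} {k : ℕ} (hk : 0 < k) {S : Finset (Fin k → Fin b)}
    (hS : Closed S) {M : ℕ} (hM : 0 < M)
    (hL : ∀ w ∈ S, ∃ ρ, ρ < M ∧ ∀ t, t % M = ρ → L t = per w) {w : Fin k → Fin b} (hw : w ∈ S)
    {ε : ℝ} (hε : 0 < ε) :
    ∀ᶠ N : ℕ in atTop, (1 - ε) / M ≤ (count (stretch L) N w : ℝ) / N := by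
  classical
  have hM' : (0 : ℝ) < M := by exact_mod_cast hM
  have hk' : (0 : ℝ) < k := by exact_mod_cast hk
  -- the residue classes
  have h1 : ∀ i : ℕ, ∃ ρ, ρ < M ∧ ∀ t, t % M = ρ → L t = per (rot (k * k - i) w) := fun i =>
    hL _ (hS w hw _)
  choose ρ hρ hρL using h1
  have h2 : ∀ᶠ N : ℕ in atTop, ∀ i ∈ Finset.range k, (1 - ε) / (k * M) * N ≤
      ((∑ u ∈ Finset.range (Nat.sqrt N / M - 1), ((2 * (ρ i % M + M * u) - (k + i)) / k) : ℕ) : ℝ) := by
    rw [Filter.eventually_all_finset]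
    intro i _
    exact density k i (ρ i) hM hk hε
  filter_upwards [h2, eventually_gt_atTop 0] with N hN hN0
  have hN' : (0 : ℝ) < N := by exact_mod_cast hN0
  have h3 : ∀ i, ∃ D : Finset ℕ, (∀ n ∈ D, n < N ∧ ∃ t v, n = t ^ 2 + (i + k * v) ∧
      i + k * v + k ≤ 2 * t ∧ t % M = ρ i % M) ∧
      ∑ u ∈ Finset.range (Nat.sqrt N / M - 1), ((2 * (ρ i % M + M * u) - (k + i)) / k) ≤ D.card :=
    fun i => pairs_card M k k (ρ i) i hk N
  choose D hD1 hD2 using h3
  have hsub : (Finset.range k).biUnion D ⊆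
      (Finset.range N).filter fun n => ∀ j : Fin k, stretch L (n + j) = w j := by
    intro n hn
    rw [Finset.mem_biUnion] at hn
    obtain ⟨i, hi, hnD⟩ := hn
    rw [Finset.mem_range] at hi
    obtain ⟨hnN, t, v, hnt, hle, hmod⟩ := hD1 i n hnD
    rw [Finset.mem_filter, Finset.mem_range]
    refine ⟨hnN, fun j => ?_⟩
    have hj := j.2
    have e1 : n + (j : ℕ) = t ^ 2 + (i + k * v + j) := by omega
    rw [e1, stretch_eq L (by omega), hρL i t (by rw [hmod, Nat.mod_eq_of_lt (hρ i)])]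
    unfold per
    rw [dif_pos hk]
    have e2 : (⟨(i + k * v + j) % k, Nat.mod_lt _ hk⟩ : Fin k) =
        ⟨((j : ℕ) + i) % k, Nat.mod_lt _ hk⟩ := by
      ext
      simp only
      rw [show i + k * v + (j : ℕ) = ((j : ℕ) + i) + k * v by ring, Nat.add_mul_mod_self_left]
    rw [e2]
    have e3 : rot (k * k - i) w ⟨((j : ℕ) + i) % k, Nat.mod_lt _ hk⟩ = rot i (rot (k * k - i) w) j :=
      rfl
    rw [e3, rot_rot]
    have e4 : i + (k * k - i) = k * k := by
      have : k ≤ k * k := Nat.le_mul_self k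
      omega
    rw [e4, rot_mul]
  have hdisj : Set.PairwiseDisjoint (↑(Finset.range k)) D := by
    intro i hi i' hi' hne
    rw [Function.onFun, Finset.disjoint_left]
    intro n hn hn'
    obtain ⟨_, t, v, hnt, hle, _⟩ := hD1 i n hn
    obtain ⟨_, t', v', hnt', hle', _⟩ := hD1 i' n hn'
    rw [Finset.mem_coe, Finset.mem_range] at hi hi'
    have e1 : Nat.sqrt n = t := by rw [hnt, sq]; apply Nat.sqrt_add_eq; omega
    have e2 : Nat.sqrt n = t' := by rw [hnt', sq]; apply Nat.sqrt_add_eq; omega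
    have e3 : t = t' := by omega
    subst e3
    have e4 : i + k * v = i' + k * v' := by omega
    apply hne
    have e5 : (i + k * v) % k = (i' + k * v') % k := by rw [e4]
    rw [Nat.add_mul_mod_self_left, Nat.add_mul_mod_self_left, Nat.mod_eq_of_lt hi,
      Nat.mod_eq_of_lt hi'] at e5
    exact e5
  have hcard : (∑ i ∈ Finset.range k, ((D i).card : ℝ)) ≤ count (stretch L) N w := by
    unfold count
    have := Finset.card_le_card hsub
    rw [Finset.card_biUnion (fun i hi i' hi' h => hdisj hi hi' h)] at this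
    exact_mod_cast this
  have hlow : (1 - ε) / M * N ≤ ∑ i ∈ Finset.range k, ((D i).card : ℝ) := by
    calc (1 - ε) / M * N = ∑ _i ∈ Finset.range k, (1 - ε) / (k * M) * (N : ℝ) := by
          rw [Finset.sum_const, Finset.card_range, nsmul_eq_mul]
          field_simp
      _ ≤ _ := by
          apply Finset.sum_le_sum
          intro i hi
          refine (hN i hi).trans ?_
          exact_mod_cast hD2 i
  rw [le_div_iff₀ hN']
  linarith

/-- long stretches of zeros -/
lemma zeros_ge {L : ℕ → ℕ → Fin b} {M ρ : ℕ} (hρ : ρ < M)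
    (hL : ∀ t, t % M = ρ → L t = fun _ => 0) (l : ℕ) {ε : ℝ} (hε : 0 < ε) :
    ∀ᶠ N : ℕ in atTop, (1 - ε) / M ≤ (count (stretch L) N (fun _ : Fin l => (0 : Fin b)) : ℝ) / N := by
  classical
  have hM : 0 < M := by omega
  have h2 := density (M := M) (k := 1) l 0 ρ hM one_pos hε
  filter_upwards [h2, eventually_gt_atTop 0] with N hN hN0
  have hN' : (0 : ℝ) < N := by exact_mod_cast hN0
  obtain ⟨D, hD1, hD2⟩ := pairs_card M 1 l ρ 0 one_pos N
  have hsub : D ⊆ (Finset.range N).filter fun n => ∀ j : Fin l, stretch L (n + j) = 0 := by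
    intro n hn
    obtain ⟨hnN, t, v, hnt, hle, hmod⟩ := hD1 n hn
    rw [Finset.mem_filter, Finset.mem_range]
    refine ⟨hnN, fun j => ?_⟩
    have hj := j.2
    have e1 : n + (j : ℕ) = t ^ 2 + (0 + 1 * v + j) := by omega
    rw [e1, stretch_eq L (by omega), hL t (by rw [hmod, Nat.mod_eq_of_lt hρ])]
  have hcard : (D.card : ℝ) ≤ count (stretch L) N (fun _ : Fin l => (0 : Fin b)) := by
    unfold count
    exact_mod_cast Finset.card_le_card hsub
  have h3 : (1 - ε) / M * N ≤ D.card := by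
    have h4 : ((∑ u ∈ Finset.range (Nat.sqrt N / M - 1), ((2 * (ρ % M + M * u) - (l + 0)) / 1) : ℕ) : ℝ)
        ≤ D.card := by exact_mod_cast hD2
    refine le_trans (le_of_eq ?_) (hN.trans h4)
    norm_num
  rw [le_div_iff₀ hN']
  linarith

end Pool.Agent.Q197.WD
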